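import Mathlib

/-! # Unitriangular integer matrices form a torsion-free nilpotent group -/

set_option autoImplicit false

open scoped commutatorElement

namespace Pool.Agent.NR39

section Low

variable {n : ℕ}

/-- The entries of `m` on and below the `i`-th superdiagonal (strictly below it) vanish. -/
def Low (i : ℕ) (m : Matrix (Fin n) (Fin n) ℤ) : Prop :=
  ∀ a b : Fin n, (b : ℕ) < a + i → m a b = 0

theorem Low.mul {i j : ℕ} {m₁ m₂ : Matrix (Fin n) (Fin n) ℤ} (h1 : Low i m₁) (h2 : Low j m₂) :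
    Low (i + j) (m₁ * m₂) := by
  intro a b hab
  rw [Matrix.mul_apply]
  apply Finset.sum_eq_zero
  intro c _
  by_cases hc : (c : ℕ) < a + i
  · rw [h1 a c hc, zero_mul]
  · rw [h2 c b (by omega), mul_zero]

theorem Low.add {i : ℕ} {m₁ m₂ : Matrix (Fin n) (Fin n) ℤ} (h1 : Low i m₁) (h2 : Low i m₂) :
    Low i (m₁ + m₂) := by
  intro a b hab
  rw [Matrix.add_apply, h1 a b hab, h2 a b hab, add_zero]

theorem Low.neg {i : ℕ} {m : Matrix (Fin n) (Fin n) ℤ} (h : Low i m) : Low i (-m) := by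
  intro a b hab
  rw [Matrix.neg_apply, h a b hab, neg_zero]

theorem Low.sub {i : ℕ} {m₁ m₂ : Matrix (Fin n) (Fin n) ℤ} (h1 : Low i m₁) (h2 : Low i m₂) :
    Low i (m₁ - m₂) := by
  rw [sub_eq_add_neg]
  exact h1.add h2.neg

theorem Low.smul {i : ℕ} {m : Matrix (Fin n) (Fin n) ℤ} (k : ℤ) (h : Low i m) : Low i (k • m) := by
  intro a b hab
  rw [Matrix.smul_apply, h a b hab, smul_zero]

theorem Low.mono {i j : ℕ} {m : Matrix (Fin n) (Fin n) ℤ} (h : Low i m) (hij : j ≤ i) : Low j m :=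
  fun a b hab => h a b (by omega)

theorem low_one : Low 0 (1 : Matrix (Fin n) (Fin n) ℤ) := by
  intro a b hab
  rw [Matrix.one_apply_ne]
  rintro rfl
  omega

theorem Low.eq_zero {m : Matrix (Fin n) (Fin n) ℤ} (h : Low n m) : m = 0 := by
  ext a b
  exact h a b (by omega)

theorem Low.one_add {i : ℕ} {m : Matrix (Fin n) (Fin n) ℤ} (h : Low i (m - 1)) : Low 0 m := by
  have h1 := (h.mono (Nat.zero_le i)).add low_one
  rwa [sub_add_cancel] at h1

/-- Units of the matrix ring which are the identity up to the `i`-th superdiagonal. -/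
def VV (n i : ℕ) : Subgroup (Matrix (Fin n) (Fin n) ℤ)ˣ where
  carrier := {g | Low i ((g : Matrix (Fin n) (Fin n) ℤ) - 1) ∧
    Low i (((g⁻¹ : (Matrix (Fin n) (Fin n) ℤ)ˣ) : Matrix (Fin n) (Fin n) ℤ) - 1)}
  mul_mem' := by
    rintro a b ⟨ha, ha'⟩ ⟨hb, hb'⟩
    have key : ∀ x y : Matrix (Fin n) (Fin n) ℤ, Low i (x - 1) → Low i (y - 1) →
        Low i (x * y - 1) := by
      intro x y hx hy
      have h1 : x * y - 1 = (x - 1) * (y - 1) + (x - 1) + (y - 1) := by noncomm_ring
      rw [h1]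
      exact (((hx.mul hy).mono (by omega)).add hx).add hy
    constructor
    · rw [Units.val_mul]
      exact key _ _ ha hb
    · rw [mul_inv_rev, Units.val_mul]
      exact key _ _ hb' ha'
  one_mem' := by
    have h0 : Low i (0 : Matrix (Fin n) (Fin n) ℤ) := fun a b _ => rfl
    constructor
    · simpa using h0
    · simpa using h0
  inv_mem' := by
    rintro a ⟨ha, ha'⟩
    refine ⟨ha', ?_⟩
    rw [inv_inv]
    exact ha

theorem comm_low {i j : ℕ} {x g x' g' : Matrix (Fin n) (Fin n) ℤ} (h1 : x * x' = 1)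
    (h2 : g * g' = 1) (hx : Low i (x - 1)) (hg : Low j (g - 1)) (hx' : Low i (x' - 1))
    (hg' : Low j (g' - 1)) : Low (i + j) (x * g * x' * g' - 1) := by
  have h3 : x * g * x' * g' - 1 = ((x - 1) * (g - 1) - (g - 1) * (x - 1)) * (x' * g') := by
    have h4 : ((x - 1) * (g - 1) - (g - 1) * (x - 1)) * (x' * g') =
        x * g * x' * g' - g * (x * x') * g' := by noncomm_ring
    rw [h4, h1, mul_one, h2]
  rw [h3]
  have h5 : Low 0 (x' * g') := hx'.one_add.mul hg'.one_add
  have h6 : Low (i + j) ((x - 1) * (g - 1) - (g - 1) * (x - 1)) :=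
    (hx.mul hg).sub ((hg.mul hx).mono (by omega))
  exact h6.mul h5

theorem VV_nilpotent (n : ℕ) : Group.IsNilpotent (VV n 1) := by
  rw [Subgroup.nilpotent_iff_finite_descending_central_series]
  refine ⟨n, fun k => (VV n (k + 1)).subgroupOf (VV n 1), ⟨?_, ?_⟩, ?_⟩
  · exact Subgroup.subgroupOf_self _
  · intro x k hx g
    rw [Subgroup.mem_subgroupOf] at hx ⊢
    obtain ⟨hx1, hx2⟩ := hx
    obtain ⟨hg1, hg2⟩ := g.2
    constructor
    · have h := comm_low (x.1.mul_inv) (g.1.mul_inv) hx1 hg1 hx2 hg2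
      exact h
    · have h := comm_low (g.1.mul_inv) (x.1.mul_inv) hg1 hx1 hg2 hx2
      have h2 : ((⁅x, g⁆ : VV n 1) : (Matrix (Fin n) (Fin n) ℤ)ˣ)⁻¹ =
          g.1 * x.1 * g.1⁻¹ * x.1⁻¹ := by
        rw [commutatorElement_def]
        push_cast
        group
      rw [h2]
      exact h.mono (by omega)
  · rw [eq_bot_iff]
    intro x hx
    rw [Subgroup.mem_subgroupOf] at hx
    rw [Subgroup.mem_bot]
    apply Subtype.ext
    apply Units.ext
    have h1 := (hx.1.mono (Nat.le_succ n)).eq_zero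
    exact sub_eq_zero.1 h1

theorem pow_expand {N : Matrix (Fin n) (Fin n) ℤ} (hN : Low 0 N) (k : ℕ) :
    ∃ C, Low 0 C ∧ (1 + N) ^ k = 1 + (k : ℤ) • N + N * N * C := by
  induction k with
  | zero =>
    refine ⟨0, fun a b _ => rfl, ?_⟩
    simp
  | succ k ih =>
    obtain ⟨C, hC, h⟩ := ih
    refine ⟨C + (k : ℤ) • 1 + C * N, (hC.add (low_one.smul _)).add (hC.mul hN), ?_⟩
    rw [pow_succ, h]
    push_cast
    simp only [mul_add, add_mul, mul_one, one_mul, smul_mul_assoc, mul_smul_comm, add_smul, one_smul,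
      mul_assoc]
    abel

theorem VV_torsionfree (n : ℕ) (g : VV n 1) (k : ℤ) (hk : k ≠ 0) (h : g ^ k = 1) : g = 1 := by
  have h0 : g ^ k.natAbs = 1 := by
    rcases Int.natAbs_eq k with hk' | hk'
    · rw [hk', zpow_natCast] at h
      exact h
    · rw [hk', zpow_neg, zpow_natCast, inv_eq_one] at h
      exact h
  set K := k.natAbs with hK
  have hK0 : (K : ℤ) ≠ 0 := by
    simpa [hK] using hk
  set N : Matrix (Fin n) (Fin n) ℤ := (g.1 : Matrix (Fin n) (Fin n) ℤ) - 1 with hN
  have hN1 : Low 1 N := g.2.1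
  obtain ⟨C, hC, hexp⟩ := pow_expand (hN1.mono (Nat.zero_le 1)) K
  have h1 : (1 + N) ^ K = 1 := by
    have h2 : (1 + N) = (g.1 : Matrix (Fin n) (Fin n) ℤ) := by
      rw [hN]
      abel
    rw [h2, ← Units.val_pow_eq_pow_val, ← Subgroup.coe_pow, h0]
    rfl
  rw [h1] at hexp
  have h2 : (K : ℤ) • N = -(N * N * C) := by
    have h3 : (1 : Matrix (Fin n) (Fin n) ℤ) - (1 + (K : ℤ) • N + N * N * C) = 0 := by
      rw [← hexp, sub_self]
    have h4 : (K : ℤ) • N + N * N * C = 0 := by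
      have h5 : (K : ℤ) • N + N * N * C =
        -((1 : Matrix (Fin n) (Fin n) ℤ) - (1 + (K : ℤ) • N + N * N * C)) := by abel
      rw [h5, h3, neg_zero]
    exact eq_neg_of_add_eq_zero_left h4
  have h3 : ∀ i, Low (i + 1) N := by
    intro i
    induction i with
    | zero => exact hN1
    | succ i ih =>
      have h4 : Low (i + 1 + 1) ((K : ℤ) • N) := by
        rw [h2]
        exact (((ih.mul ih).mul hC).mono (by omega)).neg
      intro a b hab
      have h5 := h4 a b hab
      rw [Matrix.smul_apply, smul_eq_mul] at h5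
      exact (mul_eq_zero.1 h5).resolve_left hK0
  have h4 := ((h3 n).mono (Nat.le_succ n)).eq_zero
  apply Subtype.ext
  apply Units.ext
  exact sub_eq_zero.1 h4

end Low

end Pool.Agent.NR39
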