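import Mathlib
import Pool.Agent.NR39.UT

/-! # Free groups are residually torsion-free nilpotent -/

set_option autoImplicit false

namespace Pool.Agent.NR39

section Det

variable {ι : Type*} [DecidableEq ι]

/-- The matrix of the generator `i` for the syllable word `L`. -/
def XX (L : List (ι × ℤ)) (i : ι) : Matrix (Fin (L.length + 1)) (Fin (L.length + 1)) ℤ :=
  fun a b => if (b : ℕ) = a + 1 ∧ (L[(a : ℕ)]?).map Prod.fst = some i then 1 else 0

theorem XX_low (L : List (ι × ℤ)) (i : ι) : Low 1 (XX L i) := by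
  intro a b hab
  unfold XX
  rw [if_neg]
  omega

theorem XX_sq (L : List (ι × ℤ)) (hL : L.IsChain (fun x y => x.1 ≠ y.1)) (i : ι) :
    XX L i * XX L i = 0 := by
  ext a c
  rw [Matrix.mul_apply, Matrix.zero_apply]
  apply Finset.sum_eq_zero
  intro b _
  unfold XX
  by_cases h1 : (b : ℕ) = a + 1 ∧ (L[(a : ℕ)]?).map Prod.fst = some i
  · by_cases h2 : (c : ℕ) = b + 1 ∧ (L[(b : ℕ)]?).map Prod.fst = some i
    · exfalso
      obtain ⟨hb, ha⟩ := h1
      obtain ⟨_, hb'⟩ := h2
      rw [Option.map_eq_some_iff] at ha hb'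
      obtain ⟨x, hx, hxi⟩ := ha
      obtain ⟨y, hy, hyi⟩ := hb'
      rw [hb] at hy
      rw [List.getElem?_eq_some_iff] at hx hy
      obtain ⟨hx1, hx2⟩ := hx
      obtain ⟨hy1, hy2⟩ := hy
      have h3 := (List.isChain_iff_getElem.1 hL) (a : ℕ) hy1
      rw [hx2, hy2, hxi, hyi] at h3
      exact h3 rfl
    · rw [if_neg h2, mul_zero]
  · rw [if_neg h1, zero_mul]

/-- The unit `1 + X i`. -/
def gg (L : List (ι × ℤ)) (hL : L.IsChain (fun x y => x.1 ≠ y.1)) (i : ι) :
    Multiplicative ℤ →* (Matrix (Fin (L.length + 1)) (Fin (L.length + 1)) ℤ)ˣ where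
  toFun e := ⟨1 + e.toAdd • XX L i, 1 - e.toAdd • XX L i, by
    have h := XX_sq L hL i
    simp only [mul_sub, add_mul, mul_one, one_mul, smul_mul_assoc, mul_smul_comm, h, smul_zero,
      add_zero]
    abel, by
    have h := XX_sq L hL i
    simp only [mul_add, sub_mul, mul_one, one_mul, smul_mul_assoc, mul_smul_comm, h, smul_zero,
      sub_zero]
    abel⟩
  map_one' := by
    apply Units.ext
    simp
  map_mul' e f := by
    have h := XX_sq L hL i
    apply Units.ext
    simp only [toAdd_mul, Units.val_mul, mul_add, add_mul, mul_one, one_mul, smul_mul_assoc,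
      mul_smul_comm, h, smul_zero, add_zero, add_smul]
    abel

theorem gg_mem (L : List (ι × ℤ)) (hL : L.IsChain (fun x y => x.1 ≠ y.1)) (i : ι)
    (e : Multiplicative ℤ) : gg L hL i e ∈ VV (L.length + 1) 1 := by
  constructor
  · have h1 : ((gg L hL i e : (Matrix (Fin (L.length + 1)) (Fin (L.length + 1)) ℤ)ˣ) :
        Matrix (Fin (L.length + 1)) (Fin (L.length + 1)) ℤ) - 1 = e.toAdd • XX L i := by
      change (1 + e.toAdd • XX L i) - 1 = _
      abel
    rw [h1]
    exact (XX_low L i).smul _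
  · have h1 : (((gg L hL i e)⁻¹ : (Matrix (Fin (L.length + 1)) (Fin (L.length + 1)) ℤ)ˣ) :
        Matrix (Fin (L.length + 1)) (Fin (L.length + 1)) ℤ) - 1 = -(e.toAdd • XX L i) := by
      change (1 - e.toAdd • XX L i) - 1 = _
      abel
    rw [h1]
    exact ((XX_low L i).smul _).neg

theorem vec_step (L : List (ι × ℤ)) (i : ι) (e : ℤ) (v : Fin (L.length + 1) → ℤ)
    (t : ℕ) (ht : t < L.length) (hi : L[t].1 = i)
    (h0 : v ⟨t, by omega⟩ ≠ 0) (hv : ∀ b : Fin (L.length + 1), t < (b : ℕ) → v b = 0)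
    (he : e ≠ 0) :
    (Matrix.vecMul v (1 + e • XX L i)) ⟨t + 1, by omega⟩ ≠ 0 ∧
    ∀ b : Fin (L.length + 1), t + 1 < (b : ℕ) → (Matrix.vecMul v (1 + e • XX L i)) b = 0 := by
  have key : ∀ b, (Matrix.vecMul v (1 + e • XX L i)) b = v b + e * ∑ a, v a * XX L i a b := by
    intro b
    rw [Matrix.vecMul_add, Matrix.vecMul_one, Matrix.vecMul_smul]
    rfl
  constructor
  · rw [key, hv _ (by simp)]
    rw [Finset.sum_eq_single (⟨t, by omega⟩ : Fin (L.length + 1))]
    · have h1 : XX L i ⟨t, by omega⟩ ⟨t + 1, by omega⟩ = 1 := by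
        unfold XX
        rw [if_pos]
        refine ⟨rfl, ?_⟩
        simp [ht, hi]
      rw [h1, mul_one, zero_add]
      exact mul_ne_zero he h0
    · intro a _ ha
      have h1 : XX L i a ⟨t + 1, by omega⟩ = 0 := by
        unfold XX
        rw [if_neg]
        rintro ⟨h2, _⟩
        apply ha
        apply Fin.ext
        simp only at h2 ⊢
        omega
      rw [h1, mul_zero]
    · intro h
      exact absurd (Finset.mem_univ _) h
  · intro b hb
    rw [key, hv b (by omega)]
    rw [Finset.sum_eq_zero, mul_zero, add_zero]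
    intro a _
    by_cases h1 : t < (a : ℕ)
    · rw [hv a h1, zero_mul]
    · have h2 : XX L i a b = 0 := by
        unfold XX
        rw [if_neg]
        omega
      rw [h2, mul_zero]

theorem vec_prod (L : List (ι × ℤ)) (hL0 : ∀ x ∈ L, x.2 ≠ 0) :
    ∀ (L₂ L₁ : List (ι × ℤ)), L₁ ++ L₂ = L → ∀ v : Fin (L.length + 1) → ℤ,
    (∀ b : Fin (L.length + 1), (b : ℕ) = L₁.length → v b ≠ 0) →
    (∀ b : Fin (L.length + 1), L₁.length < (b : ℕ) → v b = 0) →
    (Matrix.vecMul v ((L₂.map (fun x => 1 + x.2 • XX L x.1)).prod)) (Fin.last _) ≠ 0 := by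
  intro L₂
  induction L₂ with
  | nil =>
    intro L₁ h v h0 _
    rw [List.map_nil, List.prod_nil, Matrix.vecMul_one]
    apply h0
    rw [List.append_nil] at h
    rw [h]
    rfl
  | cons x L₂ ih =>
    intro L₁ h v h0 hv
    rw [List.map_cons, List.prod_cons, ← Matrix.vecMul_vecMul]
    have hlen : L₁.length < L.length := by
      rw [← h]
      simp
    have hget : L[L₁.length] = x := by
      subst h
      simp
    have hx : x.2 ≠ 0 := hL0 x (by rw [← h]; simp)
    obtain ⟨h1, h2⟩ := vec_step L x.1 x.2 v L₁.length hlen (by rw [hget]) (h0 _ rfl) hv hx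
    apply ih (L₁ ++ [x])
    · rw [List.append_assoc]
      exact h
    · intro b hb
      have h3 : b = ⟨L₁.length + 1, by omega⟩ := by
        apply Fin.ext
        simpa using hb
      rw [h3]
      exact h1
    · intro b hb
      apply h2
      simpa using hb

theorem prod_ne_one (L : List (ι × ℤ)) (hL0 : ∀ x ∈ L, x.2 ≠ 0) (hne : L ≠ []) :
    (L.map (fun x => 1 + x.2 • XX L x.1)).prod ≠ 1 := by
  intro hcon
  have hpos : 0 < L.length := List.length_pos_iff.2 hne
  have h := vec_prod L hL0 L [] rfl (Pi.single 0 1) (by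
    intro b hb
    have h1 : b = 0 := by
      apply Fin.ext
      simpa using hb
    rw [h1, Pi.single_eq_same]
    exact one_ne_zero) (by
    intro b hb
    rw [Pi.single_eq_of_ne]
    rintro rfl
    simp at hb)
  rw [hcon, Matrix.vecMul_one, Pi.single_eq_of_ne] at h
  · exact h rfl
  · intro h1
    have h2 := congrArg Fin.val h1
    simp at h2
    exact hne h2

end Det

/-- Every nontrivial element of a free group survives in a torsion-free nilpotent group. -/
theorem free_residual {ι : Type*} (x : FreeGroup ι) (hx : x ≠ 1) :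
    ∃ (n : ℕ) (f : FreeGroup ι →* VV n 1), f x ≠ 1 := by
  classical
  set y := freeGroupEquivCoprodI x with hy
  set w := Monoid.CoprodI.Word.equiv y with hw
  have hprod : w.prod = y := Monoid.CoprodI.Word.equiv.symm_apply_apply y
  have hy1 : y ≠ 1 := by
    intro h
    apply hx
    rw [hy] at h
    exact (map_eq_one_iff _ freeGroupEquivCoprodI.injective).1 h
  set ex : FreeGroup Unit → ℤ := fun z => FreeGroup.freeGroupUnitEquivInt z with hex
  have hexp : ∀ z : FreeGroup Unit, FreeGroup.of () ^ (ex z) = z :=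
    fun z => FreeGroup.freeGroupUnitEquivInt.symm_apply_apply z
  set L : List (ι × ℤ) := w.toList.map (fun l => (l.1, ex l.2)) with hL
  have hchain : L.IsChain (fun x y => x.1 ≠ y.1) := by
    rw [hL, List.isChain_map]
    exact w.chain_ne
  have hL0 : ∀ x ∈ L, x.2 ≠ 0 := by
    intro z hz
    rw [hL, List.mem_map] at hz
    obtain ⟨l, hl, rfl⟩ := hz
    intro h0
    apply w.ne_one l hl
    have := hexp l.2
    simp only at h0
    rw [h0, zpow_zero] at this
    exact this.symm
  have hne : L ≠ [] := by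
    intro h
    apply hy1
    rw [hL, List.map_eq_nil_iff] at h
    rw [← hprod, Monoid.CoprodI.Word.prod, h]
    rfl
  set f : FreeGroup ι →* VV (L.length + 1) 1 :=
    FreeGroup.lift (fun i => ⟨gg L hchain i (Multiplicative.ofAdd 1), gg_mem L hchain i _⟩) with hf
  refine ⟨L.length + 1, f, ?_⟩
  intro hcon
  apply prod_ne_one L hL0 hne
  have h6 : ∀ {β : Type _} (G : ι × ℤ → β), L.map G = w.toList.map (fun l => G (l.1, ex l.2)) := by
    intro β G
    rw [hL, List.map_map]
    rfl
  have h1 : (f x : (Matrix (Fin (L.length + 1)) (Fin (L.length + 1)) ℤ)ˣ) =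
      (L.map (fun x => gg L hchain x.1 (Multiplicative.ofAdd x.2))).prod := by
    have h2 : x = (freeGroupEquivCoprodI.symm y) := by
      rw [hy, MulEquiv.symm_apply_apply]
    have h3 : ((VV (L.length + 1) 1).subtype.comp f) x = (((VV (L.length + 1) 1).subtype.comp f).comp
        (freeGroupEquivCoprodI (ι := ι)).symm.toMonoidHom) w.prod := by
      rw [hprod, MonoidHom.comp_apply (g := (VV (L.length + 1) 1).subtype.comp f)]
      congr 1
    change ((VV (L.length + 1) 1).subtype.comp f) x = _
    rw [h3, Monoid.CoprodI.Word.prod, map_list_prod, List.map_map, h6]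
    congr 1
    apply List.map_congr_left
    intro l _
    simp only [Function.comp_apply]
    have h4 : (Monoid.CoprodI.of (i := l.1) l.2 : Monoid.CoprodI fun _ : ι => FreeGroup Unit) =
        (Monoid.CoprodI.of (i := l.1) (FreeGroup.of ())) ^ (ex l.2) := by
      rw [← map_zpow, hexp]
    rw [h4, map_zpow, MonoidHom.comp_apply]
    have h5 : (freeGroupEquivCoprodI (ι := ι)).symm.toMonoidHom
        (Monoid.CoprodI.of (i := l.1) (FreeGroup.of ())) = FreeGroup.of l.1 := by
      simp
    rw [h5, MonoidHom.comp_apply, hf, FreeGroup.lift_apply_of]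
    change (gg _ hchain l.1 (Multiplicative.ofAdd 1)) ^ _ = _
    rw [← map_zpow]
    congr 1
    rw [← ofAdd_zsmul]
    simp
  have h2 : ((f x : (Matrix (Fin (L.length + 1)) (Fin (L.length + 1)) ℤ)ˣ) :
      Matrix (Fin (L.length + 1)) (Fin (L.length + 1)) ℤ) =
      (L.map (fun x => 1 + x.2 • XX L x.1)).prod := by
    rw [h1]
    rw [← Units.coeHom_apply, map_list_prod, List.map_map]
    rfl
  rw [← h2, hcon]
  rfl

end Pool.Agent.NR39
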