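import Mathlib
import Pool.Agent.NR39.Det

/-! # Free groups are residually finite `p`-groups -/

set_option autoImplicit false

open scoped commutatorElement

namespace Pool.Agent.NR39

section

variable {n : ℕ}

/-- Divisibility version of `Low`. -/
def LowD (q : ℤ) (i : ℕ) (m : Matrix (Fin n) (Fin n) ℤ) : Prop :=
  ∀ a b : Fin n, (b : ℕ) < a + i → q ∣ m a b

theorem LowD.mul {q : ℤ} {i j : ℕ} {m₁ m₂ : Matrix (Fin n) (Fin n) ℤ} (h1 : LowD q i m₁)
    (h2 : LowD q j m₂) : LowD q (i + j) (m₁ * m₂) := by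
  intro a b hab
  rw [Matrix.mul_apply]
  apply Finset.dvd_sum
  intro c _
  by_cases hc : (c : ℕ) < a + i
  · exact (h1 a c hc).mul_right _
  · exact (h2 c b (by omega)).mul_left _

theorem LowD.add {q : ℤ} {i : ℕ} {m₁ m₂ : Matrix (Fin n) (Fin n) ℤ} (h1 : LowD q i m₁)
    (h2 : LowD q i m₂) : LowD q i (m₁ + m₂) := by
  intro a b hab
  rw [Matrix.add_apply]
  exact dvd_add (h1 a b hab) (h2 a b hab)

theorem LowD.mono {q : ℤ} {i j : ℕ} {m : Matrix (Fin n) (Fin n) ℤ} (h : LowD q i m) (hij : j ≤ i) :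
    LowD q j m :=
  fun a b hab => h a b (by omega)

theorem Low.lowD {q : ℤ} {i : ℕ} {m : Matrix (Fin n) (Fin n) ℤ} (h : Low i m) : LowD q i m :=
  fun a b hab => by
    rw [h a b hab]
    exact dvd_zero _

theorem pow_expand' {q : ℤ} {N : Matrix (Fin n) (Fin n) ℤ} (hN : LowD q 0 N) (k : ℕ) :
    ∃ C, LowD q 0 C ∧ (1 + N) ^ k = 1 + (k : ℤ) • N + N * N * C := by
  have h1 : LowD q 0 (1 : Matrix (Fin n) (Fin n) ℤ) := low_one.lowD
  have hs : ∀ (k : ℤ) (m : Matrix (Fin n) (Fin n) ℤ), LowD q 0 m → LowD q 0 (k • m) := by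
    intro k m hm a b hab
    rw [Matrix.smul_apply, smul_eq_mul]
    exact (hm a b hab).mul_left _
  induction k with
  | zero =>
    refine ⟨0, fun a b _ => by simp, ?_⟩
    simp
  | succ k ih =>
    obtain ⟨C, hC, h⟩ := ih
    refine ⟨C + (k : ℤ) • 1 + C * N, (hC.add (hs _ _ h1)).add (hC.mul hN), ?_⟩
    rw [pow_succ, h]
    push_cast
    simp only [mul_add, add_mul, mul_one, one_mul, smul_mul_assoc, mul_smul_comm, add_smul, one_smul,
      mul_assoc]
    abel

/-- Raising a unitriangular matrix to the power `q ^ n` gives a matrix congruent to `1`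
modulo `q`. -/
theorem pow_cong (q : ℕ) (N : Matrix (Fin n) (Fin n) ℤ) (hN : LowD (q : ℤ) 1 N) (i : ℕ) :
    LowD (q : ℤ) (i + 1) ((1 + N) ^ (q ^ i) - 1) := by
  induction i with
  | zero =>
    have h : (1 + N) ^ (q ^ 0) - 1 = N := by
      rw [pow_zero, pow_one]
      abel
    rw [h]
    exact hN
  | succ i ih =>
    set M := (1 + N) ^ (q ^ i) - 1 with hM
    obtain ⟨C, hC, h⟩ := pow_expand' (ih.mono (Nat.zero_le _)) q
    have h1 : (1 + N) ^ (q ^ (i + 1)) - 1 = (q : ℤ) • M + M * M * C := by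
      rw [pow_succ, pow_mul, show (1 + N) ^ (q ^ i) = 1 + M by rw [hM]; abel, h]
      abel
    rw [h1]
    apply LowD.add
    · intro a b _
      rw [Matrix.smul_apply, smul_eq_mul]
      exact dvd_mul_right _ _
    · exact ((ih.mul ih).mul hC).mono (by omega)

end

/-- Reduction of the units of the matrix ring modulo `q`. -/
def red (n : ℕ) (q : ℕ) : (Matrix (Fin n) (Fin n) ℤ)ˣ →* (Matrix (Fin n) (Fin n) (ZMod q))ˣ :=
  Units.map ((Int.castRingHom (ZMod q)).mapMatrix : Matrix (Fin n) (Fin n) ℤ →+* _).toMonoidHom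

theorem red_eq_one_iff (n q : ℕ) (g : (Matrix (Fin n) (Fin n) ℤ)ˣ) :
    red n q g = 1 ↔ ∀ a b, (q : ℤ) ∣ ((g : Matrix (Fin n) (Fin n) ℤ) - 1) a b := by
  have h0 : ((red n q g : (Matrix (Fin n) (Fin n) (ZMod q))ˣ) : Matrix (Fin n) (Fin n) (ZMod q)) =
      (g : Matrix (Fin n) (Fin n) ℤ).map (Int.castRingHom (ZMod q)) := rfl
  rw [Units.ext_iff, h0, Units.val_one, ← Matrix.ext_iff]
  apply forall_congr'
  intro a
  apply forall_congr'
  intro b
  rw [Matrix.map_apply, Matrix.sub_apply, ← ZMod.intCast_zmod_eq_zero_iff_dvd]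
  have h1 : (1 : Matrix (Fin n) (Fin n) (ZMod q)) a b =
      (((1 : Matrix (Fin n) (Fin n) ℤ) a b : ℤ) : ZMod q) := by
    rw [Matrix.one_apply, Matrix.one_apply]
    split_ifs <;> simp
  rw [h1, Int.cast_sub, sub_eq_zero]
  rfl

/-- The group `VV n 1` modulo `p ^ k` is a finite `p`-group. -/
theorem red_pgroup (n p k : ℕ) [Fact p.Prime] :
    IsPGroup p ((VV n 1).map (red n (p ^ k))) := by
  rintro ⟨g, hg⟩
  rw [Subgroup.mem_map] at hg
  obtain ⟨g₀, hg₀, rfl⟩ := hg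
  refine ⟨k * n, ?_⟩
  apply Subtype.ext
  change (red n (p ^ k) g₀) ^ (p ^ (k * n)) = 1
  rw [← map_pow, red_eq_one_iff]
  have hN : LowD ((p ^ k : ℕ) : ℤ) 1 ((g₀ : Matrix (Fin n) (Fin n) ℤ) - 1) := hg₀.1.lowD
  have h := pow_cong (p ^ k) _ hN n
  rw [show (1 : Matrix (Fin n) (Fin n) ℤ) + ((g₀ : Matrix (Fin n) (Fin n) ℤ) - 1) =
    (g₀ : Matrix (Fin n) (Fin n) ℤ) by abel, ← pow_mul] at h
  intro a b
  rw [Units.val_pow_eq_pow_val]
  exact h a b (by omega)

/-- Every nontrivial element of a free group survives in a finite `p`-group. -/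
theorem free_residual_p (p : ℕ) [Fact p.Prime] {ι : Type*} (x : FreeGroup ι) (hx : x ≠ 1) :
    ∃ (P : Type) (_ : Group P) (_ : Finite P) (f : FreeGroup ι →* P), IsPGroup p P ∧ f x ≠ 1 := by
  obtain ⟨n, f, hf⟩ := free_residual x hx
  have h1 : ((f x : (Matrix (Fin n) (Fin n) ℤ)ˣ) : Matrix (Fin n) (Fin n) ℤ) - 1 ≠ 0 := by
    intro h
    apply hf
    apply Subtype.ext
    apply Units.ext
    exact sub_eq_zero.1 h
  have h2 : ∃ a b, (((f x : (Matrix (Fin n) (Fin n) ℤ)ˣ) : Matrix (Fin n) (Fin n) ℤ) - 1) a b ≠ 0 := by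
    by_contra hcon
    push Not at hcon
    apply h1
    ext a b
    exact hcon a b
  obtain ⟨a, b, hab⟩ := h2
  set e := (((f x : (Matrix (Fin n) (Fin n) ℤ)ˣ) : Matrix (Fin n) (Fin n) ℤ) - 1) a b with he
  have hp : 1 < p := (Fact.out : p.Prime).one_lt
  have hq : e.natAbs < p ^ e.natAbs := Nat.lt_pow_self hp
  set q := p ^ e.natAbs with hqdef
  have hqpos : q ≠ 0 := by
    rw [hqdef]
    exact pow_ne_zero _ (by omega)
  have : NeZero q := ⟨hqpos⟩
  have hmem : ∀ y : FreeGroup ι, red n q (f y).1 ∈ (VV n 1).map (red n q) :=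
    fun y => Subgroup.mem_map_of_mem _ (f y).2
  refine ⟨(VV n 1).map (red n q), inferInstance, inferInstance,
    (((red n q).comp (VV n 1).subtype).comp f).codRestrict _ hmem, red_pgroup n p _, ?_⟩
  intro hcon
  have h3 : red n q (f x).1 = 1 := congrArg Subtype.val hcon
  rw [red_eq_one_iff] at h3
  have h4 := h3 a b
  rw [← he] at h4
  have h5 := Int.le_of_dvd (a := (q : ℤ)) (b := |e|) (abs_pos.2 hab) ((dvd_abs _ _).2 h4)
  rw [Int.abs_eq_natAbs] at h5
  omega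

end Pool.Agent.NR39
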